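import Pool.Agent.MWKP.Stmts

set_option autoImplicit false

namespace Pool.Agent.MWKP.H3

open Pool.Agent.Helper14_MV Pool.Agent.Helper2_MV Pool.Agent.MWK Pool.Agent.MWKP

/-- same shape and same residues -/
def Sim (n : ℕ) (A B : List ℕ) : Prop :=
  ∀ x, (A.count x = B.count x ∨ (2 ≤ A.count x ∧ 2 ≤ B.count x)) ∧
    A.count x ≡ B.count x [MOD n]

theorem Sim.of_perm {n : ℕ} {A B : List ℕ} (h : ∀ x, A.count x = B.count x) : Sim n A B :=
  fun x => ⟨Or.inl (h x), by rw [h x]⟩

theorem tr {n m : ℕ} {W W' v : List ℕ} (h1 : Sim n W W')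
    (h2 : ∀ y, Dp m v y → Sim n (pre W y) (pre W' y)) (h3 : Ag (FF m v) W v) (h4 : Rz n m W v) :
    Ag (FF m v) W' v ∧ Rz n m W' v := by
  refine ⟨⟨?_, ?_⟩, ?_, ?_⟩
  · intro x i hi
    have a := h3.1 x i hi
    have b := (h1 x).1
    rw [← a]
    omega
  · intro y x i hi hy
    have a := h3.2 y x i hi hy
    have b := (h2 y hy x).1
    rw [← a]
    omega
  · intro x
    exact (h1 x).2.symm.trans (h4.1 x)
  · intro y x hy
    exact (h2 y hy x).2.symm.trans (h4.2 y x hy)

/-- dead letters with numbers divisible by `n` -/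
theorem tr_dead {n m : ℕ} {R E Q v : List ℕ} (hd : ∀ l ∈ E, 2 ≤ R.count l)
    (hn : ∀ l, E.count l ≡ 0 [MOD n]) :
    Sim n (R ++ Q) (R ++ E ++ Q) ∧ ∀ y, Dp m v y → Sim n (pre (R ++ Q) y) (pre (R ++ E ++ Q) y) := by
  have key : ∀ Q' : List ℕ, Sim n (R ++ Q') (R ++ E ++ Q') := by
    intro Q' x
    have h2 : (R ++ Q').count x ≡ (R ++ E ++ Q').count x [MOD n] := by
      rw [List.count_append, List.count_append, List.count_append]
      have h3 := (Nat.ModEq.add_left (R.count x) (hn x).symm).add_right (Q'.count x)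
      rwa [Nat.add_zero] at h3
    refine ⟨?_, h2⟩
    by_cases hx : x ∈ E
    · right
      have h3 := hd x hx
      rw [List.count_append, List.count_append, List.count_append]
      omega
    · left
      rw [List.count_append, List.count_append, List.count_append,
        List.count_eq_zero_of_not_mem hx, Nat.add_zero]
  refine ⟨key Q, ?_⟩
  intro y _
  by_cases hy : y ∈ R
  · rw [pre_append_mem hy, List.append_assoc, pre_append_mem hy]
    exact Sim.of_perm (fun _ => rfl)
  · have hyE : y ∉ E := fun hh => hy (List.count_pos_iff.1 (by have := hd y hh; omega))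
    have hRE : y ∉ R ++ E := by
      intro hh
      rcases List.mem_append.1 hh with hh | hh
      · exact hy hh
      · exact hyE hh
    rw [pre_append hy, pre_append hRE]
    exact key _

theorem tr_swap {n m : ℕ} {P Q v : List ℕ} {a c : ℕ} (ha : a ∈ P ∨ ¬ Dp m v a)
    (hc : c ∈ P ∨ ¬ Dp m v c) :
    Sim n (P ++ a :: c :: Q) (P ++ c :: a :: Q) ∧
      ∀ y, Dp m v y → Sim n (pre (P ++ a :: c :: Q) y) (pre (P ++ c :: a :: Q) y) := by
  have key : ∀ Q' : List ℕ, Sim n (P ++ a :: c :: Q') (P ++ c :: a :: Q') := fun Q' =>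
    Sim.of_perm (fun x => List.Perm.count_eq (List.Perm.append_left _ (List.Perm.swap _ _ _)) x)
  refine ⟨key Q, ?_⟩
  intro y hy
  by_cases hyP : y ∈ P
  · rw [pre_append_mem hyP, pre_append_mem hyP]
    exact Sim.of_perm (fun _ => rfl)
  · have hya : y ≠ a := by
      rintro rfl
      exact ha.elim hyP (fun hh => hh hy)
    have hyc : y ≠ c := by
      rintro rfl
      exact hc.elim hyP (fun hh => hh hy)
    have e1 : P ++ a :: c :: Q = (P ++ [a, c]) ++ Q := by simp
    have e2 : P ++ c :: a :: Q = (P ++ [c, a]) ++ Q := by simp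
    have n1 : y ∉ P ++ [a, c] := by simp [hyP, hya, hyc]
    have n2 : y ∉ P ++ [c, a] := by simp [hyP, hya, hyc]
    rw [e1, e2, pre_append n1, pre_append n2]
    have e3 : ∀ T : List ℕ, (P ++ [a, c]) ++ T = P ++ a :: c :: T := by intro T; simp
    have e4 : ∀ T : List ℕ, (P ++ [c, a]) ++ T = P ++ c :: a :: T := by intro T; simp
    rw [e3, e4]
    exact key _

theorem move {n : ℕ} (θ : FIC) (m : ℕ) (v : List ℕ)
    (h : ∀ (P : List ℕ) (a b : ℕ) (Q : List ℕ), Ag (FF m v) (P ++ a :: b :: Q) v →
      (a ∈ P ∨ ¬ Dp m v a) → (b ∈ P ∨ ¬ Dp m v b) → RR θ (P ++ a :: b :: Q) (P ++ b :: a :: Q))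
    (R : List ℕ) (c : ℕ) (v'' : List ℕ) (hv'' : v = R ++ c :: v'') (hR : R.count c ≤ 1)
    (hcR : c ∈ R ∨ ¬ Dp m v c) (P₁ : List ℕ) :
    ∀ Q : List ℕ, c ∉ P₁ → Ag (FF m v) (R ++ P₁ ++ c :: Q) v → Rz n m (R ++ P₁ ++ c :: Q) v →
        RR θ (R ++ P₁ ++ c :: Q) (R ++ c :: (P₁ ++ Q)) ∧
          Ag (FF m v) (R ++ c :: (P₁ ++ Q)) v ∧ Rz n m (R ++ c :: (P₁ ++ Q)) v := by
  induction P₁ using List.reverseRecOn with
  | nil =>
    intro Q _ hAg hRz
    rw [List.append_nil] at hAg hRz ⊢
    exact ⟨RR.refl _, hAg, hRz⟩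
  | append_singleton P₂ a ih =>
    intro Q hc hAg hRz
    have hcP : c ∉ P₂ := fun hh => hc (List.mem_append_left _ hh)
    have hac : a ≠ c := fun hh => hc (by rw [hh]; simp)
    obtain ⟨P, hP⟩ : ∃ P, P = R ++ P₂ := ⟨_, rfl⟩
    have e1 : R ++ (P₂ ++ [a]) ++ c :: Q = P ++ a :: c :: Q := by rw [hP]; simp
    have e2 : R ++ P₂ ++ c :: (a :: Q) = P ++ c :: a :: Q := by rw [hP]
    rw [e1] at hAg hRz ⊢
    have hRc : P.count c = R.count c := by
      rw [hP, List.count_append, List.count_eq_zero_of_not_mem hcP, Nat.add_zero]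
    have hα : a ∈ P ∨ ¬ Dp m v a := by
      by_contra hcon
      rw [not_or, not_not] at hcon
      obtain ⟨h1, h2⟩ := hcon
      have h3 := hAg.2 a c (R.count c) hR h2
      rw [pre_split h1, hRc] at h3
      have h4 : a ∉ R := fun hh => h1 (by rw [hP]; exact List.mem_append_left _ hh)
      have h5 : pre v a = R ++ c :: pre v'' a := by
        rw [hv'', pre_append h4]
        congr 1
        unfold pre
        rw [List.takeWhile_cons_of_pos]
        simp [Ne.symm hac]
      rw [h5, List.count_append, List.count_cons_self] at h3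
      omega
    have hβ : c ∈ P ∨ ¬ Dp m v c := by
      rcases hcR with hh | hh
      · exact Or.inl (by rw [hP]; exact List.mem_append_left _ hh)
      · exact Or.inr hh
    have hswap := h P a c Q hAg hα hβ
    obtain ⟨s1, s2⟩ := tr_swap (n := n) (Q := Q) hα hβ
    obtain ⟨hAg', hRz'⟩ := tr s1 s2 hAg hRz
    obtain ⟨h1, h2, h3⟩ := ih (a :: Q) hcP (by rw [e2]; exact hAg') (by rw [e2]; exact hRz')
    have e3 : (P₂ ++ [a]) ++ Q = P₂ ++ a :: Q := by simp
    rw [e3]
    rw [e2] at h1
    exact ⟨θ.trans hswap h1, h2, h3⟩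

/-- **DAT** -/
theorem dat (hkdd : KddStmt) : DatStmt := by
  intro n θ hK m v h
  have key : ∀ (v' R u' : List ℕ), v = R ++ v' → Ag (FF m v) (R ++ u') v → Rz n m (R ++ u') v →
      RR θ (R ++ u') v := by
    intro v'
    induction v' with
    | nil =>
      intro R u' hR hAg hRz
      rw [List.append_nil] at hR
      have hd : ∀ l ∈ u', 2 ≤ R.count l := by
        intro l hl
        by_contra hcon
        have h1 := hAg.1 l (R.count l) (by omega)
        rw [List.count_append, hR] at h1
        have h2 := List.count_pos_iff.2 hl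
        omega
      have hn : ∀ l, u'.count l ≡ ([] : List ℕ).count l [MOD n] := by
        intro l
        have h1 := hRz.1 l
        rw [List.count_append, hR] at h1
        have h2 : R.count l + u'.count l ≡ R.count l + 0 [MOD n] := by rwa [Nat.add_zero]
        rw [List.count_nil]
        exact Nat.ModEq.add_left_cancel' _ h2
      have h3 := hkdd n θ hK R u' [] [] hd (by simp) hn
      rw [List.append_nil, List.append_nil, List.append_nil] at h3
      rw [hR]
      exact h3
    | cons c v'' ih =>
      intro R u' hR hAg hRz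
      have e0 : ∀ T : List ℕ, (R ++ [c]) ++ T = R ++ c :: T := by intro T; simp
      have hv' : v = (R ++ [c]) ++ v'' := by rw [hR, e0]
      by_cases hRc : 2 ≤ R.count c
      · obtain ⟨E, hE⟩ : ∃ E, E = List.replicate n c := ⟨_, rfl⟩
        have hd : ∀ l ∈ E, 2 ≤ R.count l := by
          intro l hl
          rw [hE, List.mem_replicate] at hl
          rw [hl.2]
          exact hRc
        have hn : ∀ l, E.count l ≡ 0 [MOD n] := by
          intro l
          rw [hE, List.count_replicate]
          split
          · exact (Nat.modEq_zero_iff_dvd).2 (dvd_refl n)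
          · rfl
        have h3 := hkdd n θ hK R [] E u' (by simp) hd (fun l => by
          rw [List.count_nil]
          exact (hn l).symm)
        rw [List.append_nil] at h3
        obtain ⟨s1, s2⟩ := tr_dead (n := n) (m := m) (v := v) (Q := u') hd hn
        obtain ⟨hAg', hRz'⟩ := tr s1 s2 hAg hRz
        have e4 : R ++ E ++ u' = (R ++ [c]) ++ (List.replicate (n - 1) c ++ u') := by
          have h5 : n = (n - 1) + 1 := by have := hK.pos; omega
          rw [hE]
          nth_rewrite 1 [h5]
          rw [List.replicate_succ]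
          simp
        rw [e4] at h3 hAg' hRz'
        exact θ.trans h3 (ih (R ++ [c]) _ hv' hAg' hRz')
      · have hRc' : R.count c ≤ 1 := by omega
        have hcu : c ∈ u' := by
          have h1 := hAg.1 c (R.count c) hRc'
          rw [List.count_append, hR, List.count_append, List.count_cons_self] at h1
          rw [← List.count_pos_iff]
          omega
        obtain ⟨P₁, Q, hu, hcP⟩ := List.eq_append_cons_of_mem hcu
        have e1 : R ++ u' = R ++ P₁ ++ c :: Q := by rw [hu]; simp
        rw [e1] at hAg hRz ⊢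
        by_cases hcase : c ∈ R ∨ ¬ Dp m v c
        · obtain ⟨h1, h2, h3⟩ := move (n := n) θ m v h R c v'' hR hRc' hcase P₁ Q hcP hAg hRz
          rw [← e0] at h1 h2 h3
          exact θ.trans h1 (ih (R ++ [c]) _ hv' h2 h3)
        · rw [not_or, not_not] at hcase
          obtain ⟨hcR, hdp⟩ := hcase
          have hp1 : pre v c = R := by rw [hR]; exact pre_split hcR _
          have hp2 : pre (R ++ P₁ ++ c :: Q) c = R ++ P₁ := by
            apply pre_split
            intro hh
            rcases List.mem_append.1 hh with hh | hh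
            · exact hcR hh
            · exact hcP hh
          have hd : ∀ l ∈ P₁, 2 ≤ R.count l := by
            intro l hl
            by_contra hcon
            have h1 := hAg.2 c l (R.count l) (by omega) hdp
            rw [hp1, hp2, List.count_append] at h1
            have h2 := List.count_pos_iff.2 hl
            omega
          have hn : ∀ l, P₁.count l ≡ 0 [MOD n] := by
            intro l
            have h1 := hRz.2 c l hdp
            rw [hp1, hp2, List.count_append] at h1
            have h2 : R.count l + P₁.count l ≡ R.count l + 0 [MOD n] := by rwa [Nat.add_zero]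
            exact Nat.ModEq.add_left_cancel' _ h2
          have h3 := hkdd n θ hK R P₁ [] (c :: Q) hd (by simp) (fun l => by
            rw [List.count_nil]
            exact hn l)
          rw [List.append_nil] at h3
          have hd2 := hd
          -- the word without `P₁`
          have hsym : ∀ {A B : List ℕ}, Sim n A B → Sim n B A := by
            intro A B hAB x
            obtain ⟨t1, t2⟩ := hAB x
            refine ⟨?_, t2.symm⟩
            rcases t1 with t1 | t1
            · exact Or.inl t1.symm
            · exact Or.inr ⟨t1.2, t1.1⟩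
          obtain ⟨s1, s2⟩ := tr_dead (n := n) (m := m) (v := v) (Q := c :: Q) hd hn
          obtain ⟨hAg', hRz'⟩ := tr (hsym s1) (fun y hy => hsym (s2 y hy)) hAg hRz
          rw [← e0] at h3 hAg' hRz'
          exact θ.trans h3 (ih (R ++ [c]) _ hv' hAg' hRz')
  intro u hAg hRz
  exact key v [] u rfl hAg hRz

end Pool.Agent.MWKP.H3
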